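import Pool.Agent.H45.Greedy

open Complex Filter Topology Set Pool.Agent.H45.Greedy

namespace Pool.Agent.Results.MP_e36abb_an.Aper

/-- `z 0, z 1, …` is the greedy walk `z₋₁, z₀, …` with signs `ε`, and no tie ever occurs -/
def Walk (α : ℝ) (z : ℕ → ℂ) (ε : ℕ → ℝ) : Prop :=
  ∀ n, (ε n = 1 ∨ ε n = -1) ∧ z (n + 1) = z n + ε n * exp (2 * Real.pi * I * α * n) ∧
    ‖z n + ε n * exp (2 * Real.pi * I * α * n)‖ < ‖z n - ε n * exp (2 * Real.pi * I * α * n)‖

noncomputable def ρ : ℂ := ⟨-2 / 3, -√5 / 3⟩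
noncomputable def σ : ℂ := ⟨-2 / 3, √5 / 3⟩
noncomputable def c : ℂ := ⟨-1 / 2, -√5 / 10⟩
noncomputable def sg (u : ℂ) : ℝ := if u.re < 0 then 1 else -1
noncomputable def U (u : ℂ) : ℂ := ρ * (u + sg u)
def Adm (n : ℕ) (u : ℂ) : Prop := ∀ j < n, (U^[j] u).re ≠ 0

lemma s5 : √5 * √5 = 5 := Real.mul_self_sqrt (by norm_num)

lemma σe : σ = exp (2 * Real.pi * a0 * I) := by
  have := exp_mul_I (2 * Real.pi * a0 : ℝ)
  rw [← ofReal_cos, ← ofReal_sin, a0_cos, a0_sin] at this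
  push_cast at this
  rw [this]; apply Complex.ext <;> simp [σ]

lemma ρσ : ρ * σ = 1 := by apply Complex.ext <;> simp [ρ, σ] <;> nlinarith [s5]

lemma σn : ‖σ‖ = 1 := by rw [σe]; exact_mod_cast norm_exp_ofReal_mul_I (2 * Real.pi * a0)

lemma ρn : ‖ρ‖ = 1 := by simpa [σn] using congrArg norm ρσ

lemma loc (n : ℕ) (u : ℂ) (h : Adm n u) : ∀ᶠ w in 𝓝 u, (∀ j < n, sg (U^[j] w) = sg (U^[j] u)) ∧ Adm n w ∧
    U^[n] w = U^[n] u + ρ ^ n * (w - u) := by
  induction n with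
  | zero => simp [Adm]
  | succ n ih =>
    have t : Tendsto (fun w => (U^[n] u + ρ ^ n * (w - u)).re) (𝓝 u) (𝓝 (U^[n] u).re) :=
      Continuous.tendsto' (by fun_prop) _ _ (by simp)
    have : ∀ᶠ w in 𝓝 u, sg (U^[n] u + ρ ^ n * (w - u)) = sg (U^[n] u) ∧ (U^[n] u + ρ ^ n * (w - u)).re ≠ 0 := by
      rcases (h n n.lt_succ_self).lt_or_gt with e | e
      · exact (t.eventually_lt_const e).mono fun w a => ⟨by rw [sg, sg, if_pos a, if_pos e], a.ne⟩
      · exact (t.eventually_const_lt e).mono fun w a => ⟨by rw [sg, sg, if_neg a.not_gt, if_neg e.not_gt], a.ne'⟩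
    filter_upwards [this, ih fun j hj => h j (by omega)] with w ⟨a, b⟩ ⟨d, e, f⟩
    rw [← f] at a b
    refine ⟨fun j hj => (Nat.lt_succ_iff_lt_or_eq.1 hj).elim (d j) fun e => e ▸ a,
      fun j hj => (Nat.lt_succ_iff_lt_or_eq.1 hj).elim (e j) fun e => e ▸ b, ?_⟩
    simp only [Function.iterate_succ_apply', U]
    rw [a, f]; ring

lemma plus {ξ : ℂ} (h : ξ.re < 1 / 2) : (c + ξ).re < 0 ∧ U (c + ξ) = c + ρ * ξ := by
  have : (c + ξ).re < 0 := by simp [c]; linarith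
  refine ⟨this, ?_⟩
  rw [U, sg, if_pos this]
  apply Complex.ext <;> simp [ρ, c] <;> nlinarith [s5]

lemma minus {ξ : ℂ} (h : -1 / 2 < ξ.re) : 0 < (-c + ξ).re ∧ U (-c + ξ) = -c + ρ * ξ := by
  have : 0 < (-c + ξ).re := by simp [c]; linarith
  refine ⟨this, ?_⟩
  rw [U, sg, if_neg this.not_gt]
  apply Complex.ext <;> simp [ρ, c] <;> nlinarith [s5]

lemma loop (ζ : ℂ) (hζ : ‖ζ‖ = 1 / 2) {r : ℝ} (r0 : 0 < r) (M : ℕ) : ∃ ξ, ‖ξ - ζ‖ < r ∧ ∃ m ≥ M,
    Adm (m + 3) (c + ξ) ∧ (∀ i < m, sg (U^[i] (c + ξ)) = 1) ∧ sg (U^[m] (c + ξ)) = -1 ∧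
    ‖U^[m + 3] (c + ξ) - c‖ = 1 / 2 := by
  obtain ⟨m, hm, k, hk⟩ := approx a0_irr (arg ζ / (2 * Real.pi)) (η := r / 8) (by positivity) M
  have m1 : ‖σ ^ m / 2 - ζ‖ < r / 2 := by
    have e : σ ^ m / 2 = ζ * exp (I * (2 * Real.pi * (m * a0 - arg ζ / (2 * Real.pi) - k) : ℝ)) := by
      have e := norm_mul_exp_arg_mul_I ζ
      rw [hζ] at e
      generalize arg ζ = θ at e ⊢
      have : (Real.pi : ℂ) ≠ 0 := ofReal_ne_zero.2 Real.pi_ne_zero
      rw [← e, mul_assoc, ← exp_add, σe, ← exp_nat_mul, ← mul_one (exp (m * _)),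
        ← exp_int_mul_two_pi_mul_I (-k), ← exp_add, div_eq_inv_mul]
      congr 1
      · simp
      · congr 1; push_cast; field_simp; ring
    rw [e, ← mul_sub_one, norm_mul, hζ]
    have := Real.norm_exp_I_mul_ofReal_sub_one_le (x := 2 * Real.pi * (m * a0 - arg ζ / (2 * Real.pi) - k))
    rw [Real.norm_eq_abs, abs_mul, abs_of_pos (by positivity : 0 < 2 * Real.pi)] at this
    nlinarith [Real.pi_lt_four, Real.pi_pos, abs_nonneg (m * a0 - arg ζ / (2 * Real.pi) - k)]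
  have ne : ∀ i : ℕ, 0 < i → (σ ^ i * (1 / 2)).re < 1 / 2 := fun i hi => by
    have n1 : ‖σ ^ i‖ = 1 := by simp [σn]
    have := (re_le_norm (σ ^ i)).lt_of_ne fun e => by
      have e1 : σ ^ i = 1 := by
        have := Complex.sq_norm (σ ^ i)
        rw [normSq_apply, e, n1] at this
        exact Complex.ext (e.trans n1) (mul_self_eq_zero.1 (by linarith))
      rw [σe, ← exp_nat_mul, exp_eq_one_iff] at e1
      obtain ⟨k, e1⟩ := e1
      refine (a0_irr.natCast_mul hi.ne').ne_int k ?_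
      have : (i * a0 : ℂ) = k := mul_right_cancel₀ two_pi_I_ne_zero (by rw [← e1]; ring)
      exact_mod_cast this
    simp; linarith
  let δ : ℝ → ℂ := fun s => σ ^ 2 * (s * I / (1 + s * I))
  have d0 : ∀ s : ℝ, 1 + s * I ≠ 0 := fun s e => by simpa using congrArg re e
  have dt : Tendsto δ (𝓝[>] 0) (𝓝 0) :=
    (Continuous.tendsto' (continuous_const.mul (Continuous.div (by fun_prop) (by fun_prop) d0)) _ _
      (by simp)).mono_left nhdsWithin_le_nhds
  obtain ⟨s, ⟨⟨h1, h2⟩, h3⟩, h4⟩ := ((((dt.norm.eventually_lt_const (u := r / 2) (by simpa using r0)).and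
    (dt.norm.eventually_lt_const (by simp : ‖(0 : ℂ)‖ < 1 / 6))).and ((Finset.Icc 1 m).eventually_all.2 fun i hi =>
      ((continuous_re.tendsto _).comp ((dt.const_add (1 / 2)).const_mul (σ ^ i))).eventually_lt_const
        (by simpa only [add_zero] using ne i (Finset.mem_Icc.1 hi).1))).and (Ioo_mem_nhdsGT one_pos)).exists
  replace h3 : ∀ i ∈ Finset.Icc 1 m, (σ ^ i * (1 / 2 + δ s)).re < 1 / 2 := h3
  have h5 : 0 < (δ s).re := by
    have : (2 : ℝ) < √5 := Real.lt_sqrt_of_sq_lt (by norm_num)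
    have e : (δ s).re = s * (4 * √5 - s) / (9 * (1 + s * s)) := by
      simp [δ, σ, sq, div_re, div_im, normSq_apply]; field_simp; linear_combination (-9 * s ^ 2) * s5
    rw [e]; exact div_pos (mul_pos h4.1 (by linarith [h4.2])) (by nlinarith)
  have run : ∀ i ≤ m, U^[i] (c + σ ^ m * (1 / 2 + δ s)) = c + σ ^ (m - i) * (1 / 2 + δ s) := fun i hi => by
    induction i with
    | zero => rfl
    | succ i ih =>
      rw [Function.iterate_succ_apply', ih (by omega), (plus (h3 _ (by simp; omega))).2,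
        show m - i = m - (i + 1) + 1 by omega, pow_succ', mul_assoc, ← mul_assoc ρ, ρσ, one_mul]
  have sm : ∀ j : ℕ, |(ρ ^ j * δ s).re| < 1 / 6 := fun j => (abs_re_le_norm _).trans_lt (by simpa [ρn] using h2)
  set ζ0 := 2 * c + 1 / 2 + δ s with hζ0
  have q0 : U^[m] (c + σ ^ m * (1 / 2 + δ s)) = -c + ζ0 := by rw [run m le_rfl, hζ0]; simp; ring
  have p0 := minus (ξ := ζ0) (by simp [hζ0, c]; linarith)
  have p1 := minus (ξ := ρ * ζ0) (by
    have := abs_lt.1 (sm 1)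
    rw [hζ0, mul_add, add_re]; simp [ρ, c] at this ⊢; nlinarith [s5])
  have p2 := minus (ξ := ρ * (ρ * ζ0)) (by
    have := abs_lt.1 (sm 2)
    rw [← mul_assoc, ← sq, hζ0, mul_add, add_re]
    have : (ρ ^ 2 * (2 * c + 1 / 2)).re = 1 / 2 := by simp [ρ, c, sq]; nlinarith [s5]
    linarith)
  have q1 : U^[m + 1] (c + σ ^ m * (1 / 2 + δ s)) = -c + ρ * ζ0 := by rw [Function.iterate_succ_apply', q0, p0.2]
  have q2 : U^[m + 2] (c + σ ^ m * (1 / 2 + δ s)) = -c + ρ * (ρ * ζ0) := by rw [Function.iterate_succ_apply', q1, p1.2]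
  refine ⟨σ ^ m * (1 / 2 + δ s), ?_, m, hm, fun j hj => ?_, fun i hi => ?_, by rw [q0, sg, if_neg p0.1.not_gt], ?_⟩
  · rw [show σ ^ m * (1 / 2 + δ s) - ζ = σ ^ m / 2 - ζ + σ ^ m * δ s by ring]
    refine (norm_add_le _ _).trans_lt ?_
    rw [norm_mul, norm_pow, σn, one_pow]; linarith
  · rcases (by omega : j < m ∨ j = m ∨ j = m + 1 ∨ j = m + 2) with e | rfl | rfl | rfl
    · rw [run j e.le]; exact (plus (h3 _ (by simp; omega))).1.ne
    exacts [q0 ▸ p0.1.ne', q1 ▸ p1.1.ne', q2 ▸ p2.1.ne']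
  · rw [run i hi.le, sg, if_pos (plus (h3 _ (by simp; omega))).1]
  · have e : -2 * c + ρ ^ 3 * (2 * c + 1 / 2) = -ρ / 2 := by
      have e1 : 3 * ρ ^ 2 + 4 * ρ + 3 = 0 := by apply Complex.ext <;> simp [ρ, sq] <;> nlinarith [s5]
      have e2 : 10 * c = 3 * ρ - 3 := by apply Complex.ext <;> simp [ρ, c] <;> ring
      linear_combination (ρ ^ 3 - 1) / 5 * e2 + (6 * ρ ^ 2 - 9 * ρ + 6) / 30 * e1
    have : -c + ρ * (ρ * (ρ * ζ0)) - c = -ρ / 2 * ((1 - s * I) / (1 + s * I)) := by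
      have := d0 s
      rw [hζ0]; simp only [δ]; field_simp
      linear_combination 2 * (1 + s * I) * e + 2 * s * I * ρ * (ρ * σ + 1) * ρσ
    rw [Function.iterate_succ_apply', q2, p2.2, this, norm_mul, norm_div, norm_div, norm_neg, ρn,
      show (1 - s * I : ℂ) = (starRingEnd ℂ) (1 + s * I) by simp [sub_eq_add_neg], norm_conj,
      div_self (norm_ne_zero_iff.2 (d0 s))]
    simp

theorem result : ∃ α : ℝ, 0 < α ∧ Irrational α ∧ ∃ z ε, Walk α z ε ∧
    ¬ ∃ N p : ℕ, 1 ≤ p ∧ ∀ n ≥ N, ε (n + p) = ε n := by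
  let Y := {y | ∃ n, Adm n y ∧ ‖U^[n] y - c‖ = 1 / 2}
  let G : ℕ → Set ℂ := fun k => {w | ∃ j ≥ k, Adm (j + k + 1) w ∧ (∀ i < k, sg (U^[j + i] w) = 1) ∧
    sg (U^[j + k] w) = -1}
  have o : ∀ k, IsOpen (G k) := fun k => isOpen_iff_mem_nhds.2 fun u ⟨j, a, b, d, e⟩ =>
    (loc _ u b).mono fun w h => ⟨j, a, h.2.1, fun i hi => (h.1 _ (by omega)).trans (d i hi),
      (h.1 _ (by omega)).trans e⟩
  have d : ∀ k, Y ⊆ closure (G k ∩ Y) := fun k y ⟨n, a, b⟩ => Metric.mem_closure_iff.2 fun r r0 => by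
    obtain ⟨r', r1, h⟩ := Metric.eventually_nhds_iff.1 (loc n y a)
    obtain ⟨ξ, x1, m, x2, x3, x4, x5, x6⟩ := loop _ b (lt_min r0 r1) (2 * k)
    have n1 : dist (y + σ ^ n * (ξ - (U^[n] y - c))) y < min r r' := by simpa [dist_eq_norm, σn] using x1
    obtain ⟨-, y1, y2⟩ := h (n1.trans_le (min_le_right _ _))
    set w := y + σ ^ n * (ξ - (U^[n] y - c))
    have y3 : ∀ i, U^[i + n] w = U^[i] (c + ξ) := fun i => by
      rw [Function.iterate_add_apply, y2, add_sub_cancel_left, ← mul_assoc, ← mul_pow, ρσ]; simp; ring_nf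
    have y4 : Adm (m + 3 + n) w := fun j hj => (lt_or_ge j n).elim (y1 j) fun e => by
      rw [← Nat.sub_add_cancel e, y3]; exact x3 _ (by omega)
    refine ⟨w, ⟨⟨m - k + n, by omega, fun j hj => y4 j (by omega), fun i hi => ?_, ?_⟩, _, y4, y3 _ ▸ x6⟩,
      dist_comm w y ▸ n1.trans_le (min_le_left _ _)⟩
    · rw [show m - k + n + i = m - k + i + n by omega, y3]; exact x4 _ (by omega)
    · rw [show m - k + n + k = m + n by omega, y3]; exact x5
  have := isClosed_closure.completeSpace_coe (s := closure Y)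
  have : Nonempty (closure Y) := ⟨⟨c + 1 / 2, subset_closure ⟨0, by simp [Adm], by simp⟩⟩⟩
  obtain ⟨⟨u, _⟩, hu⟩ := (dense_iInter_of_isOpen (fun k => (o k).preimage (continuous_subtype_val (p := (· ∈ closure Y))))
    fun k => Subtype.dense_iff.2 ((closure_minimal (d k) isClosed_closure).trans (closure_mono fun w h =>
      ⟨⟨w, subset_closure h.2⟩, h.1, rfl⟩))).nonempty
  replace hu : ∀ k, u ∈ G k := fun k => mem_iInter.1 hu k
  obtain ⟨z, hz⟩ := frame a0 (fun n => U^[n] u) (fun n => sg (U^[n] u)) (fun n => by unfold sg; split_ifs <;> simp)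
    (fun n => by
      rw [Function.iterate_succ_apply', U, exp_neg, ← σe, eq_inv_of_mul_eq_one_left ρσ]) fun n => by
      obtain ⟨j, -, h, -⟩ := hu n
      have := h n (by omega)
      unfold sg; split_ifs with e
      · simpa
      · simpa using lt_of_le_of_ne (not_lt.1 e) this.symm
  refine ⟨a0, a0_pos, a0_irr, z, _, hz, fun ⟨N, p, hp, h⟩ => ?_⟩
  obtain ⟨j, a, -, b, e⟩ := hu (N + p)
  have := h (j + N) (by omega)
  rw [add_assoc, e, b N (by omega)] at this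
  norm_num at this

end Pool.Agent.Results.MP_e36abb_an.Aper
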